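import Pool.Agent.T6.H2.PT.IsoP
import Pool.Agent.X32.Uni.Gold
import Pool.Agent.X32.Uni.Box

set_option autoImplicit false

/-!
# Isolated runs of five consecutive odd integers containing a prime, a `P₂` and two more almost primes

We count the `x` such that, among the five consecutive odd integers
`15 x - 4, 15 x - 2, 15 x, 15 x + 2, 15 x + 4`,

* a given one of the four outer ones is a prime and another given one is a product of at most two primes, both
  `> X ^ (1/9)`,
* all the four outer ones, and also `x`, are products of at most `t` primes, all `> X ^ (1/t)` (so that the middle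
  one, `15 x`, is `15` times an almost prime; if four of five consecutive odd integers `> 7` are primes, then the
  middle one is an odd multiple of `15`),
* every other integer at distance at most `ε log X` of one of these numbers has a prime factor `≤ X ^ β`; here
  `β > 0` is arbitrary and `ε = ε(β) > 0`.

Every long interval contains the expected number of such `x`, up to a constant factor, and, for every colouring,
almost all of them are covered by pairwise disjoint monochromatic arithmetic progressions of `s` such `x` with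
differences at most a power of `log X`.
-/

namespace Pool.Agent.Results.MP_fc51f7_nt.IsolatedOddIntegers

open Finset Filter
open Pool.Agent.X32.Uni Pool.Agent.T6.H2.PT

/-- the first, the second, the fourth and the fifth of the consecutive odd integers `15 x - 4, ..., 15 x + 4`,
for `x ≥ 1` odd -/
def outer (x : ℕ) : Fin 4 → ℕ := ![15 * x - 4, 15 * x - 2, 15 * x + 2, 15 * x + 4]

/-- `v` is a product of at most `r` primes, all of them larger than `y` -/
def AlmostPrime (r : ℕ) (y : ℝ) (v : ℕ) : Prop :=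
  1 < v ∧ v.primeFactorsList.length ≤ r ∧ ∀ q : ℕ, q.Prime → q ∣ v → y < q

open Classical in
/-- the `x` in `(A, B]` such that the outer number with the index `i` is a prime, the one with the index `j` is a
product of at most two primes `> X ^ (1/9)`, all the outer numbers and `x` are products of at most `t` primes
`> X ^ (1/t)`, and every other integer `z` at distance at most `w` of `x` or of an outer number has a prime factor
`≤ y` -/
noncomputable def Good (i j : Fin 4) (t X : ℕ) (w y : ℝ) (A B : ℕ) : Finset ℕ :=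
  (Ioc A B).filter (fun x : ℕ => (outer x i).Prime ∧ AlmostPrime 2 ((X : ℝ) ^ (1 / 9 : ℝ)) (outer x j) ∧
    (∀ l, AlmostPrime t ((X : ℝ) ^ (1 / (t : ℝ))) (outer x l)) ∧ AlmostPrime t ((X : ℝ) ^ (1 / (t : ℝ))) x ∧
    ∀ z : ℤ, (|(z : ℝ) - x| ≤ w ∨ ∃ l, |(z : ℝ) - outer x l| ≤ w) → z ≠ x → (∀ l, z ≠ outer x l) →
      ∃ q : ℕ, q.Prime ∧ (q : ℝ) ≤ y ∧ (q : ℤ) ∣ z)

open Classical in
/-- the `x` in `(A, B]` such that neither `x` nor an outer number has a prime factor `≤ y` -/
noncomputable def Rough (y : ℝ) (A B : ℕ) : Finset ℕ :=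
  (Ioc A B).filter (fun x : ℕ => ∀ q : ℕ, q.Prime → (q : ℝ) ≤ y → ¬ q ∣ x ∧ ∀ l, ¬ q ∣ outer x l)

/-- the terms `a, a + b, ..., a + (s - 1) b` of the progression `z = (a, b)` -/
def terms (s : ℕ) (z : ℕ × ℕ) : Finset ℕ := (range s).image (fun i => z.1 + i * z.2)

/-- the constant terms -/
def cc : Fin 4 → ℤ := ![-4, -2, 2, 4]

/-- slopes and constant terms -/
def ua : Fin 5 → ℤ := Fin.cons 1 (fun _ => 15)
def va : Fin 5 → ℤ := Fin.cons 0 cc

theorem ua0 : ua 0 = 1 := rfl
theorem uas (l : Fin 4) : ua l.succ = 15 := rfl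
theorem va0 : va 0 = 0 := rfl
theorem vas (l : Fin 4) : va l.succ = cc l := rfl

theorem out_eq {x : ℕ} (hx : 1 ≤ x) (l : Fin 4) : 15 * (x : ℤ) + cc l = ((outer x l : ℕ) : ℤ) := by
  fin_cases l
  · simp [cc, outer]
    omega
  · simp [cc, outer]
    omega
  · simp [cc, outer]
  · simp [cc, outer]

theorem v0 (x : ℕ) : ua 0 * (x : ℤ) + va 0 = (x : ℤ) := by rw [ua0, va0]; ring

theorem vs {x : ℕ} (hx : 1 ≤ x) (l : Fin 4) : ua l.succ * (x : ℤ) + va l.succ = ((outer x l : ℕ) : ℤ) := by
  rw [uas, vas, out_eq hx]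

theorem adm : AdmL ua va := by
  intro p hp
  by_cases h : p = 11 ∨ p = 13 ∨ p = 17 ∨ p = 19
  · refine ⟨7, fun i => ?_⟩
    have h7 : (7 : ℤ) = ((7 : ℕ) : ℤ) := rfl
    rw [h7]
    refine Fin.cases ?_ (fun l => ?_) i
    · rw [v0]
      rcases h with rfl | rfl | rfl | rfl <;> norm_num
    · rw [vs (by norm_num)]
      intro hd
      have hd' := Int.natCast_dvd_natCast.1 hd
      rcases h with rfl | rfl | rfl | rfl <;> fin_cases l <;> revert hd' <;> decide
  · refine ⟨1, fun i => ?_⟩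
    have h7 : (1 : ℤ) = ((1 : ℕ) : ℤ) := rfl
    rw [h7]
    push Not at h
    refine Fin.cases ?_ (fun l => ?_) i
    · rw [v0]
      intro hd
      have hd' := Int.natCast_dvd_natCast.1 hd
      exact hp.one_lt.ne' (Nat.dvd_one.1 hd')
    · rw [vs le_rfl]
      intro hd
      have hd' := Int.natCast_dvd_natCast.1 hd
      fin_cases l
      · exact h.1 ((Nat.prime_dvd_prime_iff_eq hp (by norm_num : Nat.Prime 11)).1 hd')
      · exact h.2.1 ((Nat.prime_dvd_prime_iff_eq hp (by norm_num : Nat.Prime 13)).1 hd')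
      · exact h.2.2.1 ((Nat.prime_dvd_prime_iff_eq hp (by norm_num : Nat.Prime 17)).1 hd')
      · exact h.2.2.2 ((Nat.prime_dvd_prime_iff_eq hp (by norm_num : Nat.Prime 19)).1 hd')

theorem cc_inj : Function.Injective cc := by decide

theorem det (l m : Fin 5) (hlm : l ≠ m) : ua l * va m - ua m * va l ≠ 0 := by
  revert l m
  decide

/-- the definition in terms of linear forms -/
theorem Good_eq (i j : Fin 4) (t X : ℕ) (w y : ℝ) (A B : ℕ)
    (hw : w < (X : ℝ) ^ (1 / (t : ℝ))) :
    GoodI ua va i.succ j.succ t X w y A B = Good i j t X w y A B := by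
  classical
  ext x
  unfold GoodI GoodL Good
  simp only [mem_filter, mem_Ioc]
  constructor
  · rintro ⟨⟨hx, h1, h2, h3⟩, hiso⟩
    have hx1 : 1 ≤ x := by omega
    rw [vs hx1, Int.natAbs_natCast] at h1
    rw [vs hx1, almostN_iff] at h2
    have h4 : AlmostPrime t ((X : ℝ) ^ (1 / (t : ℝ))) x := by
      have := h3 0
      rwa [v0, almostN_iff] at this
    have h5 : ∀ l : Fin 4, AlmostPrime t ((X : ℝ) ^ (1 / (t : ℝ))) (outer x l) := by
      intro l
      have := h3 l.succ
      rwa [vs hx1, almostN_iff] at this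
    refine ⟨hx, h1, h2, h5, h4, fun z hz hz1 hz2 => ?_⟩
    have hpos : ∀ v : ℕ, AlmostPrime t ((X : ℝ) ^ (1 / (t : ℝ))) v → (X : ℝ) ^ (1 / (t : ℝ)) < v := by
      intro v hv
      obtain ⟨g1, g2, g3⟩ := hv
      obtain ⟨q, hq, hqd⟩ := Nat.exists_prime_and_dvd (Nat.ne_of_gt g1)
      have g4 := g3 q hq hqd
      have g5 : q ≤ v := Nat.le_of_dvd (by omega) hqd
      have g6 : (q : ℝ) ≤ (v : ℝ) := by exact_mod_cast g5
      linarith
    have hz0 : 0 < z := by
      have : (0 : ℝ) < z := by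
        rcases hz with hz | ⟨l, hz⟩
        · have := (abs_le.1 hz).1
          have := hpos _ h4
          linarith
        · have := (abs_le.1 hz).1
          have := hpos _ (h5 l)
          linarith
      exact_mod_cast this
    have hu : ∀ u, z ≠ ua u * (x : ℤ) + va u ∧ z ≠ -(ua u * (x : ℤ) + va u) := by
      intro u
      refine Fin.cases ?_ (fun l => ?_) u
      · rw [v0]
        refine ⟨hz1, ?_⟩
        have : (0 : ℤ) ≤ x := Int.natCast_nonneg x
        omega
      · rw [vs hx1]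
        refine ⟨hz2 l, ?_⟩
        have : (0 : ℤ) ≤ ((outer x l : ℕ) : ℤ) := Int.natCast_nonneg _
        omega
    rcases hz with hz | ⟨l, hz⟩
    · refine hiso 0 z ?_ hu
      rw [v0]
      exact_mod_cast hz
    · refine hiso l.succ z ?_ hu
      rw [vs hx1]
      exact_mod_cast hz
  · rintro ⟨hx, h1, h2, h3, h4, h5⟩
    have hx1 : 1 ≤ x := by omega
    refine ⟨⟨hx, ?_, ?_, fun l => ?_⟩, ?_⟩
    · rw [vs hx1, Int.natAbs_natCast]
      exact h1
    · rw [vs hx1, almostN_iff]
      exact h2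
    · refine Fin.cases ?_ (fun l => ?_) l
      · rw [v0, almostN_iff]
        exact h4
      · rw [vs hx1, almostN_iff]
        exact h3 l
    · intro l z hz hu
      have e1 : z ≠ x := by
        have := (hu 0).1
        rwa [v0] at this
      have e2 : ∀ l : Fin 4, z ≠ (outer x l : ℕ) := by
        intro l
        have := (hu l.succ).1
        rwa [vs hx1] at this
      refine h5 z ?_ e1 e2
      revert hz
      refine Fin.cases ?_ (fun l => ?_) l
      · intro hz
        left
        rw [v0] at hz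
        exact_mod_cast hz
      · intro hz
        right
        refine ⟨l, ?_⟩
        rw [vs hx1] at hz
        exact_mod_cast hz

/-- the definition in terms of linear forms -/
theorem Rough_eq (y : ℝ) (A B : ℕ) : RL ua va y A B = Rough y A B := by
  classical
  unfold RL Rough
  apply filter_congr
  intro x hx
  rw [mem_Ioc] at hx
  have hx1 : 1 ≤ x := by omega
  constructor
  · intro h q hq hqy
    refine ⟨fun hd => h 0 q hq hqy ?_, fun l hd => h l.succ q hq hqy ?_⟩
    · rw [v0]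
      exact Int.natCast_dvd_natCast.2 hd
    · rw [vs hx1]
      exact Int.natCast_dvd_natCast.2 hd
  · intro h l
    refine Fin.cases ?_ (fun l => ?_) l
    · intro q hq hqy hd
      rw [v0] at hd
      exact (h q hq hqy).1 (Int.natCast_dvd_natCast.1 hd)
    · intro q hq hqy hd
      rw [vs hx1] at hd
      exact (h q hq hqy).2 l (Int.natCast_dvd_natCast.1 hd)

/-- **Main theorem.** -/
theorem result : ∃ t : ℕ, 1 ≤ t ∧ ∃ κ : ℝ, 0 < κ ∧ ∀ β : ℝ, 0 < β → ∃ ε K : ℝ, 0 < ε ∧ 0 < K ∧
    ∀ (s r : ℕ) (θ δ : ℝ), 1 ≤ s → 0 < θ → 0 < δ →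
    ∃ c X₀ : ℕ, ∀ X : ℕ, X₀ ≤ X → ∀ A B : ℕ, B ≤ X → θ * X ≤ (B : ℝ) - A →
      ((Rough ((X : ℝ) ^ β) A B).card : ℝ) ≤ K * ((B : ℝ) - A) / Real.log X ^ 5 ∧
      ∀ i j : Fin 4, i ≠ j →
        κ * ((B : ℝ) - A) / Real.log X ^ 5 ≤
          ((Good i j t X (ε * Real.log X) ((X : ℝ) ^ β) A B).card : ℝ) ∧
        ∀ χ : ℕ → Fin r, ∃ P : Finset (ℕ × ℕ),
          (∀ z ∈ P, 1 ≤ z.2 ∧ (z.2 : ℝ) ≤ Real.log X ^ c ∧
            ∀ l < s, z.1 + l * z.2 ∈ Good i j t X (ε * Real.log X) ((X : ℝ) ^ β) A B ∧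
              χ (z.1 + l * z.2) = χ z.1) ∧
          (P : Set (ℕ × ℕ)).PairwiseDisjoint (terms s) ∧
          (((Good i j t X (ε * Real.log X) ((X : ℝ) ^ β) A B \ P.biUnion (terms s)).card : ℕ) : ℝ) ≤
            δ * ((B : ℝ) - A) / Real.log X ^ 5 := by
  classical
  obtain ⟨t, ht, κ, hκ, HM⟩ := isoP 5 15 (by omega)
  obtain ⟨CV, hCV, hup⟩ := VL_up' ua va adm (by decide) det
  refine ⟨t, ht, κ * κ, by positivity, fun β hβ => ?_⟩
  obtain ⟨ε, hε, HM⟩ := HM β 15 hβ
  obtain ⟨K₂, hK₂, X₁, HU⟩ := rough_lin 5 15 (by omega) (1 / 2) (by norm_num) β hβ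
  refine ⟨ε, K₂ * CV, hε, by positivity, fun s r θ δ hs hθ hδ => ?_⟩
  obtain ⟨c, X₀, HM⟩ := HM s r θ (δ / CV) hs hθ (by positivity)
  have ht0 : (0 : ℝ) < t := by exact_mod_cast ht
  have h4 : ∀ᶠ X : ℕ in atTop, 1 / θ ≤ (X : ℝ) ^ (1 / 2 : ℝ) :=
    ((tendsto_rpow_atTop (by norm_num : (0 : ℝ) < 1 / 2)).comp tendsto_natCast_atTop_atTop).eventually_ge_atTop _
  have h5 : ∀ᶠ X : ℕ in atTop, (2 * ε) * Real.log X ^ 1 ≤ (X : ℝ) ^ (1 / (t : ℝ)) :=
    Pool.Agent.X32.Fam.log_small' 1 (2 * ε) (1 / (t : ℝ)) (by positivity)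
  obtain ⟨X₄, h4⟩ := eventually_atTop.1 ((h4.and h5).and hup)
  refine ⟨c, X₀ + X₁ + X₄ + 3, fun X hX A B hB hAB => ?_⟩
  have hX1 : (1 : ℝ) ≤ X := by exact_mod_cast (by omega : 1 ≤ X)
  have hX0 : (0 : ℝ) < X := by linarith
  have hlog : 0 < Real.log X := Real.log_pos (by exact_mod_cast (by omega : 1 < X))
  have hlog5 : 0 < Real.log X ^ 5 := by positivity
  have hBA0 : 0 ≤ (B : ℝ) - A := le_trans (by positivity) hAB
  have hV := (h4 X (by omega)).2
  have hw : ε * Real.log X < (X : ℝ) ^ (1 / (t : ℝ)) := by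
    have := (h4 X (by omega)).1.2
    rw [pow_one] at this
    have h6 : 0 < ε * Real.log X := by positivity
    linarith
  have hhalf : (X : ℝ) ^ (1 / 2 : ℝ) ≤ (B : ℝ) - A := by
    refine le_trans ?_ hAB
    have e1 := (h4 X (by omega)).1.1
    have e2 : (X : ℝ) ^ (1 / 2 : ℝ) * (X : ℝ) ^ (1 / 2 : ℝ) = X := by
      rw [← Real.rpow_add hX0]
      norm_num
    have e3 : 0 ≤ (X : ℝ) ^ (1 / 2 : ℝ) := by positivity
    rw [div_le_iff₀ hθ] at e1
    calc (X : ℝ) ^ (1 / 2 : ℝ) = (X : ℝ) ^ (1 / 2 : ℝ) * 1 := (mul_one _).symm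
      _ ≤ (X : ℝ) ^ (1 / 2 : ℝ) * ((X : ℝ) ^ (1 / 2 : ℝ) * θ) := by gcongr
      _ = θ * X := by rw [← mul_assoc, e2]; ring
  refine ⟨?_, fun i j hij => ?_⟩
  · have g4 := HU X (by omega) ua va (by decide) (by decide) A B hB hhalf
    rw [Rough_eq] at g4
    refine g4.trans ?_
    calc K₂ * ((B : ℝ) - A) * VL ua va X ≤ K₂ * ((B : ℝ) - A) * (CV / Real.log X ^ 5) := by gcongr
      _ = K₂ * CV * ((B : ℝ) - A) / Real.log X ^ 5 := by ring
  have S : SysL 5 15 15 X ua va i.succ j.succ :=
    { a0 := by decide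
      aE := by rw [uas]; decide
      aE' := by rw [uas]; decide
      aK := by decide
      bK := fun l => by
        have h1 : |va l| ≤ 15 := by
          revert l
          decide
        have h2 : (1 : ℤ) ≤ X := by exact_mod_cast (by omega : 1 ≤ X)
        push_cast
        linarith
      adm := adm
      ne := fun h => by
        have h2 := (Prod.ext_iff.1 h).2
        simp only [vas] at h2
        exact hij (cc_inj h2).symm
      ne' := fun h => by
        have h2 := (Prod.ext_iff.1 h).1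
        simp only [uas] at h2
        norm_num at h2 }
  obtain ⟨g1, g2⟩ := HM X (by omega) _ _ _ _ S
  obtain ⟨g3, g4⟩ := g2 A B hB hAB
  rw [Good_eq i j t X _ _ A B hw] at g3 g4
  constructor
  · refine le_trans ?_ g3
    calc κ * κ * ((B : ℝ) - A) / Real.log X ^ 5 = κ * ((B : ℝ) - A) * (κ / Real.log X ^ 5) := by ring
      _ ≤ κ * ((B : ℝ) - A) * VL ua va X := by gcongr
  · intro χ
    obtain ⟨P, p1, p2, p3⟩ := g4 χ
    refine ⟨P, p1, p2, p3.trans ?_⟩
    calc δ / CV * ((B : ℝ) - A) * VL ua va X ≤ δ / CV * ((B : ℝ) - A) * (CV / Real.log X ^ 5) := by gcongr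
      _ = δ * ((B : ℝ) - A) / Real.log X ^ 5 := by field_simp

end Pool.Agent.Results.MP_fc51f7_nt.IsolatedOddIntegers
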