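import Pool.Agent.T6.H56.EA.Cg

set_option autoImplicit false
set_option maxHeartbeats 1000000

/-! # Sums of the first elements of two almost prime sets of five consecutive odd integers, one of them very small

`S_n = {n, n + 2, n + 4, n + 6, n + 8}` is good if and only if (`n ≠ 3`) the four numbers `n, n + 2, n + 6, n + 8` are
primes. Call `n` almost good if one of these four numbers, at a given place, is a prime, another one, at a given
place, has at most two prime factors, the other ones have a bounded number of prime factors, all of them large, and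
all other integers near these numbers have a small prime factor. We show that many integers `n ≤ X` are sums
`n = ν + m` of two almost good integers, where `m` is smaller than a power of `log X`.
-/

namespace Pool.Agent.Results.MP_fc51f7_nt.RunPlusSmallRun

open Finset Filter

/-- the places of the primes in a good set of five consecutive odd integers -/
def place : Fin 4 → ℕ := ![0, 2, 6, 8]

/-- `ν + place i` is a prime, `ν + place j` has at most two prime factors, all the numbers
`ν, ν + 2, ν + 6, ν + 8 > 1` have at most `t` prime factors (counted with multiplicity), all of them larger than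
`ν ^ (1 / t)`, and every other integer `z` at distance at most `ε log ν` from one of these four numbers has a prime
factor `≤ ν ^ β`. -/
def AlmostGood (i j : Fin 4) (t : ℕ) (ε β : ℝ) (ν : ℕ) : Prop :=
  (ν + place i).Prime ∧ (ν + place j).primeFactorsList.length ≤ 2 ∧
    (∀ l, 1 < ν + place l ∧ (ν + place l).primeFactorsList.length ≤ t ∧
      ∀ q : ℕ, q.Prime → q ∣ ν + place l → (ν : ℝ) ^ (1 / (t : ℝ)) < (q : ℝ)) ∧
    ∀ l, ∀ z : ℤ, |(z : ℝ) - ((ν + place l : ℕ) : ℝ)| ≤ ε * Real.log ν → (∀ u, z ≠ ((ν + place u : ℕ) : ℤ)) →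
      ∃ q : ℕ, q.Prime ∧ (q : ℝ) ≤ (ν : ℝ) ^ β ∧ (q : ℤ) ∣ z

/-- The `n` with `X < n ≤ 18 X` of the form `n = ν + m`, `1 ≤ m ≤ (log X) ^ A`, where `m` is almost good with the
places `i', j'`, such that for some `d` with `1 ≤ d ≤ (log X) ^ A` all the `ν' = ν, ν + d, ..., ν + (s - 1) d` are
almost good with the places `i, j` and have the same colour. -/
def Sums (i j i' j' : Fin 4) (t : ℕ) (ε β : ℝ) (s A : ℕ) {q : ℕ} (χ : ℕ → Fin q) (X : ℕ) : Set ℕ :=
  {n : ℕ | X < n ∧ n ≤ 18 * X ∧ ∃ ν m d : ℕ, 1 ≤ m ∧ 1 ≤ d ∧ ν + m = n ∧ AlmostGood i' j' t ε β m ∧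
    (m : ℝ) ≤ Real.log X ^ A ∧ (d : ℝ) ≤ Real.log X ^ A ∧
    ∀ a < s, AlmostGood i j t ε β (ν + a * d) ∧ χ (ν + a * d) = χ ν}

lemma sums_finite (i j i' j' : Fin 4) (t : ℕ) (ε β : ℝ) (s A : ℕ) {q : ℕ} (χ : ℕ → Fin q)
    (X : ℕ) : (Sums i j i' j' t ε β s A χ X).Finite :=
  (Set.finite_Iic (18 * X)).subset (fun _ hn => hn.2.1)

lemma place_local : Pool.Agent.T6.H56.EA.AdmN place := by
  have h1 : ∀ l, (5 + place l).Prime := by
    intro l
    fin_cases l <;> norm_num [place]
  have h2 : ∀ l, (101 + place l).Prime := by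
    intro l
    fin_cases l <;> norm_num [place]
  have h3 : ∀ l l', 5 + place l ≠ 101 + place l' := by decide
  intro p hp
  by_cases hd : ∃ l, p ∣ 5 + place l
  · obtain ⟨l, hl⟩ := hd
    refine ⟨101, fun l' hl' => h3 l l' ?_⟩
    rw [← (Nat.prime_dvd_prime_iff_eq hp (h1 l)).1 hl, ← (Nat.prime_dvd_prime_iff_eq hp (h2 l')).1 hl']
  · push Not at hd
    exact ⟨5, hd⟩

/-- **Theorem.** There is `t` such that for all `i ≠ j`, `i' ≠ j'` and every `β > 0` there is `ε > 0` such that for
all `s ≥ 1` and `q` there are `A` and `c > 0` such that for all large `X` and every colouring `χ` of the natural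
numbers with `q` colours at least `c X / (log log log log X) ^ 32` of the integers `n` with `X < n ≤ 18 X` are sums
`n = ν + m` of almost good integers with these places, `m ≤ (log X) ^ A`, where moreover all the terms of a
progression `ν, ν + d, ..., ν + (s - 1) d`, `1 ≤ d ≤ (log X) ^ A`, are almost good and of the same colour. -/
theorem result : ∃ t : ℕ, 1 ≤ t ∧ ∀ i j i' j' : Fin 4, i ≠ j → i' ≠ j' → ∀ β : ℝ, 0 < β → ∃ ε : ℝ, 0 < ε ∧
    ∀ s q : ℕ, 1 ≤ s → ∃ A : ℕ, ∃ c : ℝ, 0 < c ∧ ∀ᶠ X : ℕ in atTop, ∀ χ : ℕ → Fin q,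
      c * X / Real.log (Real.log (Real.log (Real.log X))) ^ 32 ≤
        ((Sums i j i' j' t ε β s A χ X).ncard : ℝ) := by
  classical
  obtain ⟨t, ht, HT⟩ := Pool.Agent.T6.H56.EA.con_con 4 (by norm_num)
  have hinj : Function.Injective place := by decide
  refine ⟨t, ht, fun i j i' j' hij hij' β hβ => ?_⟩
  obtain ⟨ε, hε, HT⟩ := HT place i j i' j' hinj (fun he => hij (hinj he)) (fun he => hij' (hinj he)) place_local β hβ
  refine ⟨ε, hε, fun s q hs => ?_⟩
  obtain ⟨A, HT⟩ := HT s q hs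
  refine ⟨A, ?_⟩
  by_cases hq : q = 0
  · subst hq
    exact ⟨1, one_pos, Eventually.of_forall fun X χ => (χ 0).elim0⟩
  have hqne : Nonempty (ℕ → Fin q) := ⟨fun _ => ⟨0, Nat.pos_of_ne_zero hq⟩⟩
  -- the worst colouring for each `X`
  have hmin : ∀ X : ℕ, ∃ χ : ℕ → Fin q, ∀ χ' : ℕ → Fin q,
      (Sums i j i' j' t ε β s A χ X).ncard ≤ (Sums i j i' j' t ε β s A χ' X).ncard := by
    intro X
    let f : (ℕ → Fin q) → ℕ := fun χ => (Sums i j i' j' t ε β s A χ X).ncard
    have hne : (Set.range f).Nonempty := Set.range_nonempty f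
    obtain ⟨χ, hχ⟩ := Nat.sInf_mem hne
    refine ⟨χ, fun χ' => ?_⟩
    have h1 : sInf (Set.range f) ≤ f χ' := Nat.sInf_le ⟨χ', rfl⟩
    rw [← hχ] at h1
    exact h1
  choose χ hχ using hmin
  obtain ⟨c, hc, hX⟩ := HT χ
  refine ⟨c, hc, ?_⟩
  filter_upwards [hX] with X hX
  intro χ'
  refine hX.trans (le_trans ?_ (Nat.cast_le.2 (hχ X χ')))
  apply Nat.cast_le.2
  apply Set.ncard_le_ncard _ (sums_finite _ _ _ _ _ _ _ _ _ _ _)
  rintro n ⟨h1, h2, ν, m, h3, h4, h5, h6, d, h7, h8, h9⟩
  exact ⟨h1, h2, ν, m, d, h3, h7, h4, h5, h6, h8, h9⟩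

end Pool.Agent.Results.MP_fc51f7_nt.RunPlusSmallRun
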