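import Pool.Agent.T6.H2.FR.Iso
import Pool.Agent.T6.H2.PR.Cls

set_option autoImplicit false

/-!
# Runs of five consecutive odd integers at prescribed distances (helper2)

For odd `x` the numbers `15 x - 4, 15 x - 2, 15 x, 15 x + 2, 15 x + 4` are five consecutive odd integers, and if four of five
consecutive odd integers `> 7` are primes, then they are of this form. We consider the run of `x` together with the runs of
`M_1 ± x, ..., M_K ± x`, where `M_1, ..., M_K` are ANY integers, `|M_i| ≤ X ^ a`, for which there is no local obstruction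
(for `K = 1`: `M_1` is even and `≡ 0` or `± 2` modulo `7`). In every window of length `≥ θ X` in `(0, X]` the `x` such
that one given of the numbers `x`, `15 x ± 2`, `15 x ± 4` is a prime, another given one a product of at most two primes, and
all the `5 K + 5` numbers of the runs are products of a bounded number of large primes and isolated, have the expected
order of magnitude; almost all of them are covered by narrow arithmetic progressions of such `x` of one colour.
-/

namespace Pool.Agent.Results.MP_fc51f7_nt.RunsAtEveryDistance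

open Finset Filter
open Pool.Agent.X32.Uni Pool.Agent.T6.H2.PT Pool.Agent.T6.H2.FR

/-- `|v| > 1`, and `|v|` is a product of at most `r` primes, all of them larger than `y` -/
def AlmostPrime (r : ℕ) (y : ℝ) (v : ℤ) : Prop :=
  1 < |v| ∧ v.natAbs.primeFactorsList.length ≤ r ∧ ∀ p : ℕ, p.Prime → (p : ℤ) ∣ v → y < p

/-- the number `x` and the first, the second, the fourth and the fifth of the five consecutive odd integers
`15 x - 4, 15 x - 2, 15 x, 15 x + 2, 15 x + 4` -/
def run (x : ℤ) : Fin 5 → ℤ := ![x, 15 * x - 4, 15 * x - 2, 15 * x + 2, 15 * x + 4]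

variable {K : ℕ}

/-- the numbers of the runs of `x` and of the `M_i + σ_i x` -/
def vals (σ M : Fin K → ℤ) (x : ℕ) : Set ℤ := {v | (∃ l, v = run x l) ∨ ∃ i l, v = run (M i + σ i * x) l}

/-- the local condition -/
def Local (σ M : Fin K → ℤ) : Prop := ∀ p : ℕ, p.Prime → ∃ x : ℕ, ∀ v ∈ vals σ M x, ¬ (p : ℤ) ∣ v

/-- all the integers `z` at distance at most `w` of one of the numbers `vals σ M x`, except for the numbers `± v`, `v`
one of them, have a prime factor `≤ y` -/
def Isolated (σ M : Fin K → ℤ) (w y : ℝ) (x : ℕ) : Prop :=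
  ∀ v ∈ vals σ M x, ∀ z : ℤ, |(z : ℝ) - v| ≤ w → (∀ v' ∈ vals σ M x, z ≠ v' ∧ z ≠ -v') →
    ∃ q : ℕ, q.Prime ∧ (q : ℝ) ≤ y ∧ (q : ℤ) ∣ z

open Classical in
/-- the `x` in `(A, B]` such that the number `run x i` is a prime, `run x j` a product of at most two primes
`> X ^ (1/9)`, all the numbers `vals σ M x` are products of at most `T` primes `> X ^ (1/t)`, and `x` is isolated -/
noncomputable def Good (σ M : Fin K → ℤ) (i j : Fin 5) (t T X : ℕ) (w y : ℝ) (A B : ℕ) : Finset ℕ :=
  (Ioc A B).filter (fun x : ℕ => (run x i).natAbs.Prime ∧ AlmostPrime 2 ((X : ℝ) ^ (1 / 9 : ℝ)) (run x j) ∧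
    (∀ v ∈ vals σ M x, AlmostPrime T ((X : ℝ) ^ (1 / (t : ℝ))) v) ∧ Isolated σ M w y x)

open Classical in
/-- the `x` in `(A, B]` such that none of the numbers `vals σ M x` has a prime factor `≤ y` -/
noncomputable def Rough (σ M : Fin K → ℤ) (y : ℝ) (A B : ℕ) : Finset ℕ :=
  (Ioc A B).filter (fun x : ℕ => ∀ v ∈ vals σ M x, ∀ q : ℕ, q.Prime → (q : ℝ) ≤ y → ¬ (q : ℤ) ∣ v)

open Classical in
/-- the number of the `x` modulo `p` for which `p` divides one of the numbers `vals σ M x` -/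
noncomputable def nu (σ M : Fin K → ℤ) (p : ℕ) : ℕ := ((range p).filter (fun x : ℕ => ∃ v ∈ vals σ M x, (p : ℤ) ∣ v)).card

/-- the product of the `1 - nu / p` over the primes `p ≤ X` -/
noncomputable def V (σ M : Fin K → ℤ) (X : ℕ) : ℝ := ∏ p ∈ (Icc 1 X).filter Nat.Prime, (1 - (nu σ M p : ℝ) / p)

/-- the terms `a, a + b, ..., a + (s - 1) b` of the progression `z = (a, b)` -/
def terms (s : ℕ) (z : ℕ × ℕ) : Finset ℕ := (range s).image (fun i => z.1 + i * z.2)

/-- the slopes and the constant terms -/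
def ua : Fin 5 → ℤ := ![1, 15, 15, 15, 15]
def va : Fin 5 → ℤ := ![0, -4, -2, 2, 4]

theorem run_eq (x : ℤ) (l : Fin 5) : run x l = ua l * x + va l := by
  unfold run ua va
  fin_cases l
  · simp
  · simp; ring
  · simp; ring
  · simp
  · simp

def sl (σ : Fin K → ℤ) : Fin (5 + K * 5) → ℤ :=
  Fin.append ua (fun m => ua (finProdFinEquiv.symm m).2 * σ (finProdFinEquiv.symm m).1)
def co (M : Fin K → ℤ) : Fin (5 + K * 5) → ℤ :=
  Fin.append va (fun m => ua (finProdFinEquiv.symm m).2 * M (finProdFinEquiv.symm m).1 + va (finProdFinEquiv.symm m).2)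

theorem sl_l (σ : Fin K → ℤ) (l : Fin 5) : sl σ (Fin.castAdd (K * 5) l) = ua l := by
  unfold sl
  rw [Fin.append_left]

theorem sl_r (σ : Fin K → ℤ) (i : Fin K) (l : Fin 5) : sl σ (Fin.natAdd 5 (finProdFinEquiv (i, l))) = ua l * σ i := by
  unfold sl
  rw [Fin.append_right, Equiv.symm_apply_apply]

theorem co_l (M : Fin K → ℤ) (l : Fin 5) : co M (Fin.castAdd (K * 5) l) = va l := by
  unfold co
  rw [Fin.append_left]

theorem co_r (M : Fin K → ℤ) (i : Fin K) (l : Fin 5) :
    co M (Fin.natAdd 5 (finProdFinEquiv (i, l))) = ua l * M i + va l := by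
  unfold co
  rw [Fin.append_right, Equiv.symm_apply_apply]

theorem idx_cases (P : Fin (5 + K * 5) → Prop) (h1 : ∀ l : Fin 5, P (Fin.castAdd (K * 5) l))
    (h2 : ∀ (i : Fin K) (l : Fin 5), P (Fin.natAdd 5 (finProdFinEquiv (i, l)))) (l : Fin (5 + K * 5)) : P l := by
  refine Fin.addCases h1 (fun m => ?_) l
  have := h2 (finProdFinEquiv.symm m).1 (finProdFinEquiv.symm m).2
  rwa [Prod.mk.eta, Equiv.apply_symm_apply] at this

theorem vals_iff (σ M : Fin K → ℤ) (n : ℕ) (v : ℤ) : v ∈ vals σ M n ↔ ∃ l, v = sl σ l * (n : ℤ) + co M l := by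
  unfold vals
  rw [Set.mem_ofPred_eq]
  constructor
  · rintro (⟨l, e⟩ | ⟨i, l, e⟩)
    · exact ⟨Fin.castAdd (K * 5) l, by rw [e, sl_l, co_l, run_eq]⟩
    · exact ⟨Fin.natAdd 5 (finProdFinEquiv (i, l)), by rw [e, sl_r, co_r, run_eq]; ring⟩
  · rintro ⟨l, e⟩
    revert e
    refine idx_cases (fun l => v = sl σ l * (n : ℤ) + co M l → _) (fun l e => ?_) (fun i l e => ?_) l
    · exact Or.inl ⟨l, by rw [e, sl_l, co_l, run_eq]⟩
    · exact Or.inr ⟨i, l, by rw [e, sl_r, co_r, run_eq]; ring⟩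

theorem good_eq (σ M : Fin K → ℤ) (i j : Fin 5) (t T X : ℕ) (w y : ℝ) (A B : ℕ) :
    Good σ M i j t T X w y A B =
      GoodFI (sl σ) (co M) (Fin.castAdd (K * 5) i) (Fin.castAdd (K * 5) j) t T X w y A B := by
  classical
  unfold Good GoodFI GoodF
  rw [filter_filter]
  apply filter_congr
  intro n _
  rw [sl_l, co_l, sl_l, co_l, run_eq, run_eq]
  constructor
  · rintro ⟨h1, h2, h3, h4⟩
    refine ⟨⟨h1, h2, fun l => h3 _ ((vals_iff σ M n _).2 ⟨l, rfl⟩)⟩, ?_⟩
    intro l z hz1 hz2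
    refine h4 _ ((vals_iff σ M n _).2 ⟨l, rfl⟩) z hz1 (fun v' hv' => ?_)
    obtain ⟨l', rfl⟩ := (vals_iff σ M n _).1 hv'
    exact hz2 l'
  · rintro ⟨⟨h1, h2, h3⟩, h4⟩
    refine ⟨h1, h2, fun v hv => ?_, fun v hv z hz1 hz2 => ?_⟩
    · obtain ⟨l, rfl⟩ := (vals_iff σ M n _).1 hv
      exact h3 l
    · obtain ⟨l, rfl⟩ := (vals_iff σ M n _).1 hv
      exact h4 l z hz1 (fun l' => hz2 _ ((vals_iff σ M n _).2 ⟨l', rfl⟩))

theorem rough_eq (σ M : Fin K → ℤ) (y : ℝ) (A B : ℕ) : Rough σ M y A B = RL (sl σ) (co M) y A B := by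
  classical
  unfold Rough RL
  apply filter_congr
  intro n _
  constructor
  · intro h l
    exact h _ ((vals_iff σ M n _).2 ⟨l, rfl⟩)
  · intro h v hv
    obtain ⟨l, rfl⟩ := (vals_iff σ M n _).1 hv
    exact h l

theorem V_eq (σ M : Fin K → ℤ) (X : ℕ) : V σ M X = VL (sl σ) (co M) X := by
  classical
  unfold V VL
  apply prod_congr rfl
  intro p hp
  have hpp := (mem_filter.1 hp).2
  have : nu σ M p = omL (sl σ) (co M) p := by
    unfold nu omL
    congr 1
    apply filter_congr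
    intro n _
    constructor
    · rintro ⟨v, hv, hd⟩
      obtain ⟨l, rfl⟩ := (vals_iff σ M n _).1 hv
      exact hd.trans (dvd_prod_of_mem (fun l => sl σ l * (n : ℤ) + co M l) (mem_univ l))
    · intro h
      obtain ⟨l, _, hl⟩ := (Nat.prime_iff_prime_int.1 hpp).exists_mem_finset_dvd h
      exact ⟨_, (vals_iff σ M n _).2 ⟨l, rfl⟩, hl⟩
  rw [this]

theorem nat_of_int (a b : Fin (5 + K * 5) → ℤ) (q : ℕ) (hq : q.Prime) (h : ∃ x : ℤ, ∀ l, ¬ (q : ℤ) ∣ a l * x + b l) :
    ∃ x : ℕ, ∀ l, ¬ (q : ℤ) ∣ a l * (x : ℤ) + b l := by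
  obtain ⟨x, hx⟩ := h
  have hq0 : (0 : ℤ) < q := by exact_mod_cast hq.pos
  obtain ⟨x', hx'⟩ := Int.eq_ofNat_of_zero_le (Int.emod_nonneg x hq0.ne')
  have hd : (q : ℤ) ∣ (x' : ℤ) - x := by
    have h1 := Int.emod_add_mul_ediv x q
    rw [hx'] at h1
    exact ⟨-(x / q), by linarith⟩
  refine ⟨x', fun l hl => hx l ?_⟩
  have := dvd_sub hl (hd.mul_left (a l))
  have e : a l * (x' : ℤ) + b l - a l * ((x' : ℤ) - x) = a l * x + b l := by ring
  rwa [e] at this

/-- the local condition for one more run -/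
theorem local_one (s m : ℤ) (hs : s = 1 ∨ s = -1) :
    Local ![s] ![m] ↔ m % 2 = 0 ∧ (m % 7 = 0 ∨ m % 7 = 2 ∨ m % 7 = 5) := by
  constructor
  · intro h
    constructor
    · obtain ⟨x, hx⟩ := h 2 Nat.prime_two
      have h1 := hx (run x 0) (Or.inl ⟨0, rfl⟩)
      have h2 := hx (run (m + s * x) 0) (Or.inr ⟨0, 0, rfl⟩)
      rw [run_eq] at h1 h2
      have e1 : ua 0 = 1 := rfl
      have e2 : va 0 = 0 := rfl
      rw [e1, e2] at h1 h2
      rcases hs with rfl | rfl <;> omega
    · obtain ⟨x, hx⟩ := h 7 (by norm_num)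
      have e0 : ua 0 = 1 ∧ va 0 = 0 := ⟨rfl, rfl⟩
      have e1 : ua 1 = 15 ∧ va 1 = -4 := ⟨rfl, rfl⟩
      have e2 : ua 2 = 15 ∧ va 2 = -2 := ⟨rfl, rfl⟩
      have e3 : ua 3 = 15 ∧ va 3 = 2 := ⟨rfl, rfl⟩
      have e4 : ua 4 = 15 ∧ va 4 = 4 := ⟨rfl, rfl⟩
      have key : ∀ y : ℤ, (∀ l, ¬ (7 : ℤ) ∣ run y l) → y % 7 = 1 ∨ y % 7 = 6 := by
        intro y hy
        have q : y % 7 = 0 ∨ y % 7 = 1 ∨ y % 7 = 2 ∨ y % 7 = 3 ∨ y % 7 = 4 ∨ y % 7 = 5 ∨ y % 7 = 6 := by omega
        have h0 := hy 0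
        have h1 := hy 1
        have h2 := hy 2
        have h3 := hy 3
        have h4 := hy 4
        rw [run_eq] at h0 h1 h2 h3 h4
        rw [e0.1, e0.2] at h0
        rw [e1.1, e1.2] at h1
        rw [e2.1, e2.2] at h2
        rw [e3.1, e3.2] at h3
        rw [e4.1, e4.2] at h4
        clear hy
        rcases q with q | q | q | q | q | q | q
        · exact absurd (show (7 : ℤ) ∣ 1 * y + 0 by omega) h0
        · exact Or.inl q
        · exact absurd (show (7 : ℤ) ∣ 15 * y + -2 by omega) h2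
        · exact absurd (show (7 : ℤ) ∣ 15 * y + 4 by omega) h4
        · exact absurd (show (7 : ℤ) ∣ 15 * y + -4 by omega) h1
        · exact absurd (show (7 : ℤ) ∣ 15 * y + 2 by omega) h3
        · exact Or.inr q
      have k1 := key x (fun l => hx _ (Or.inl ⟨l, rfl⟩))
      have k2 := key (m + s * x) (fun l => hx _ (Or.inr ⟨0, l, rfl⟩))
      clear hx key
      rcases hs with rfl | rfl <;> rcases k1 with k1 | k1 <;> rcases k2 with k2 | k2 <;> omega
  · rintro ⟨h2, h7⟩ p hp
    have hR : ∀ y : ℤ, (¬ (p : ℤ) ∣ y ∧ ¬ (p : ℤ) ∣ 15 * y - 4 ∧ ¬ (p : ℤ) ∣ 15 * y - 2 ∧ ¬ (p : ℤ) ∣ 15 * y + 2 ∧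
        ¬ (p : ℤ) ∣ 15 * y + 4) → ∀ l, ¬ (p : ℤ) ∣ run y l := by
      rintro y ⟨h1, h2, h3, h4, h5⟩ l
      unfold run
      fin_cases l
      · exact h1
      · exact h2
      · exact h3
      · exact h4
      · exact h5
    have hfin : (∃ x : ℤ, (∀ l, ¬ (p : ℤ) ∣ run x l) ∧ ∀ l, ¬ (p : ℤ) ∣ run (m + s * x) l) →
        ∃ x : ℕ, ∀ v ∈ vals ![s] ![m] x, ¬ (p : ℤ) ∣ v := by
      rintro ⟨x, hx1, hx2⟩
      obtain ⟨x', hx'⟩ := nat_of_int (sl ![s]) (co ![m]) p hp ⟨x, by
        refine idx_cases _ (fun l => ?_) (fun i l => ?_)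
        · rw [sl_l, co_l, ← run_eq]
          exact hx1 l
        · rw [sl_r, co_r]
          fin_cases i
          have := hx2 l
          rw [run_eq] at this
          have e : ua l * s * x + (ua l * m + va l) = ua l * (m + s * x) + va l := by ring
          simp only [Fin.zero_eta, Matrix.cons_val_zero, Fin.isValue, Matrix.cons_val_fin_one]
          rw [e]
          exact this⟩
      refine ⟨x', fun v hv => ?_⟩
      obtain ⟨l, rfl⟩ := (vals_iff _ _ x' v).1 hv
      exact hx' l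
    rcases Nat.lt_or_ge 10 p with hlt | hge
    · have h1 : ∀ z : ℕ, z = 1 ∨ z = 15 → ¬ (p : ℤ) ∣ (z : ℤ) := by
        intro z hz h
        have h3 := Nat.le_of_dvd (by omega) (Int.natCast_dvd_natCast.1 h)
        have h4 := Int.natCast_dvd_natCast.1 h
        rcases hz with rfl | rfl
        · omega
        · have h5 : p = 11 ∨ p = 12 ∨ p = 13 ∨ p = 14 ∨ p = 15 := by omega
          rcases h5 with rfl | rfl | rfl | rfl | rfl
          · omega
          · omega
          · omega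
          · omega
          · exact absurd hp (by decide)
      have h1a : ∀ l, ¬ (p : ℤ) ∣ ua l := by
        intro l
        unfold ua
        fin_cases l
        · exact h1 1 (Or.inl rfl)
        · exact h1 15 (Or.inr rfl)
        · exact h1 15 (Or.inr rfl)
        · exact h1 15 (Or.inr rfl)
        · exact h1 15 (Or.inr rfl)
      obtain ⟨x, hx⟩ := nat_of_int (sl ![s]) (co ![m]) p hp (Pool.Agent.T6.H2.PR.adm_big (sl ![s]) (co ![m]) p hp
        (idx_cases _ (fun l => by rw [sl_l]; exact h1a l) (fun i l => by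
          rw [sl_r]
          fin_cases i
          simp only [Fin.zero_eta, Matrix.cons_val_zero, Fin.isValue, Matrix.cons_val_fin_one]
          rcases hs with rfl | rfl
          · rw [mul_one]; exact h1a l
          · rw [mul_neg_one, dvd_neg]; exact h1a l)) (by omega))
      refine ⟨x, fun v hv => ?_⟩
      obtain ⟨l, rfl⟩ := (vals_iff _ _ x v).1 hv
      exact hx l
    · apply hfin
      have hp' : p = 2 ∨ p = 3 ∨ p = 5 ∨ p = 7 := by
        have h2 := hp.two_le
        interval_cases p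
        · exact Or.inl rfl
        · exact Or.inr (Or.inl rfl)
        · exact absurd hp (by decide)
        · exact Or.inr (Or.inr (Or.inl rfl))
        · exact absurd hp (by decide)
        · exact Or.inr (Or.inr (Or.inr rfl))
        · exact absurd hp (by decide)
        · exact absurd hp (by decide)
        · exact absurd hp (by decide)
      rcases hp' with rfl | rfl | rfl | rfl
      · refine ⟨1, hR _ (by decide), hR _ ?_⟩
        push_cast
        rcases hs with rfl | rfl <;> omega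
      · have h3 : ∃ x : ℤ, (x = 1 ∨ x = 2) ∧ (m + s * x) % 3 ≠ 0 := by
          have q : m % 3 = 0 ∨ m % 3 = 1 ∨ m % 3 = 2 := by omega
          rcases hs with rfl | rfl <;> rcases q with q | q | q
          · exact ⟨1, by omega, by omega⟩
          · exact ⟨1, by omega, by omega⟩
          · exact ⟨2, by omega, by omega⟩
          · exact ⟨1, by omega, by omega⟩
          · exact ⟨2, by omega, by omega⟩
          · exact ⟨1, by omega, by omega⟩
        obtain ⟨x, hx, hx'⟩ := h3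
        refine ⟨x, hR _ ?_, hR _ ?_⟩
        · push_cast
          rcases hx with rfl | rfl <;> decide
        · push_cast
          generalize m + s * x = y at hx'
          omega
      · have h3 : ∃ x : ℤ, (x = 1 ∨ x = 2) ∧ (m + s * x) % 5 ≠ 0 := by
          have q : m % 5 = 0 ∨ m % 5 = 1 ∨ m % 5 = 2 ∨ m % 5 = 3 ∨ m % 5 = 4 := by omega
          rcases hs with rfl | rfl <;> rcases q with q | q | q | q | q
          · exact ⟨1, by omega, by omega⟩
          · exact ⟨1, by omega, by omega⟩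
          · exact ⟨1, by omega, by omega⟩
          · exact ⟨1, by omega, by omega⟩
          · exact ⟨2, by omega, by omega⟩
          · exact ⟨1, by omega, by omega⟩
          · exact ⟨2, by omega, by omega⟩
          · exact ⟨1, by omega, by omega⟩
          · exact ⟨1, by omega, by omega⟩
          · exact ⟨1, by omega, by omega⟩
        obtain ⟨x, hx, hx'⟩ := h3
        refine ⟨x, hR _ ?_, hR _ ?_⟩
        · push_cast
          rcases hx with rfl | rfl <;> decide
        · push_cast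
          generalize m + s * x = y at hx'
          omega
      · have h3 : ∃ x : ℤ, (x = 1 ∨ x = -1) ∧ ((m + s * x) % 7 = 1 ∨ (m + s * x) % 7 = 6) := by
          rcases hs with rfl | rfl <;> rcases h7 with q | q | q
          · exact ⟨1, by omega, by omega⟩
          · exact ⟨-1, by omega, by omega⟩
          · exact ⟨1, by omega, by omega⟩
          · exact ⟨1, by omega, by omega⟩
          · exact ⟨1, by omega, by omega⟩
          · exact ⟨-1, by omega, by omega⟩
        obtain ⟨x, hx, hx'⟩ := h3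
        refine ⟨x, hR _ ?_, hR _ ?_⟩
        · push_cast
          rcases hx with rfl | rfl <;> decide
        · push_cast
          generalize m + s * x = y at hx'
          rcases hx' with hx' | hx' <;> omega

theorem sys (σ M : Fin K → ℤ) (hσ : ∀ i, σ i = 1 ∨ σ i = -1) (i j : Fin 5) (hij : i ≠ j) (a X : ℕ) (hX : 19 ≤ X)
    (hM : ∀ i, |M i| ≤ (X : ℤ) ^ a) (hL : Local σ M) :
    SysF (5 + K * 5) 15 15 (a + 1) X (sl σ) (co M) (Fin.castAdd (K * 5) i) (Fin.castAdd (K * 5) j) := by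
  have hX1 : (19 : ℤ) ≤ X := by exact_mod_cast hX
  have hu : ∀ l, 1 ≤ ua l ∧ ua l ≤ 15 := by
    intro l
    fin_cases l <;> decide
  have hv : ∀ l, |va l| ≤ 4 := by
    intro l
    fin_cases l <;> decide
  have hinj : (ua j, va j) ≠ (ua i, va i) := by
    intro he
    apply hij
    revert he
    fin_cases i <;> fin_cases j <;> decide
  have hσ' : ∀ i, |σ i| = 1 := by
    intro i
    rcases hσ i with h | h
    · rw [h]; rfl
    · rw [h]; rfl
  have hXa0 : (1 : ℤ) ≤ (X : ℤ) ^ a := one_le_pow₀ (by linarith)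
  have hXa : (X : ℤ) ^ (a + 1) = X ^ a * X := pow_succ _ _
  have hXX : 19 * (X : ℤ) ^ a ≤ X ^ a * X := by nlinarith
  have hXXX : (X : ℤ) ≤ X ^ a * X := by nlinarith
  exact
    { a0 := by
        refine idx_cases _ (fun l => ?_) (fun i l => ?_)
        · rw [sl_l]
          have := (hu l).1
          omega
        · rw [sl_r]
          apply mul_ne_zero
          · have := (hu l).1
            omega
          · rcases hσ i with h | h
            · rw [h]; norm_num
            · rw [h]; norm_num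
      aE := by
        rw [sl_l]
        have := hu i
        omega
      aE' := by
        rw [sl_l]
        have := hu j
        omega
      aK := by
        refine idx_cases _ (fun l => ?_) (fun i l => ?_)
        · rw [sl_l, abs_of_nonneg (by linarith [(hu l).1])]
          exact_mod_cast (hu l).2
        · rw [sl_r, abs_mul, hσ' i, mul_one, abs_of_nonneg (by linarith [(hu l).1])]
          exact_mod_cast (hu l).2
      bi := by
        rw [co_l]
        have := hv i
        push_cast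
        nlinarith
      bj := by
        rw [co_l]
        have := hv j
        push_cast
        nlinarith
      bX := by
        refine idx_cases _ (fun l => ?_) (fun i l => ?_)
        · rw [co_l, hXa]
          have := hv l
          linarith
        · rw [co_r, hXa]
          have h1 := hv l
          have h2 := abs_add_le (ua l * M i) (va l)
          have h3 : |ua l * M i| ≤ 15 * (X : ℤ) ^ a := by
            rw [abs_mul, abs_of_nonneg (show 0 ≤ ua l by linarith [(hu l).1])]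
            exact mul_le_mul (hu l).2 (hM i) (abs_nonneg _) (by norm_num)
          linarith
      adm := by
        intro q hq
        obtain ⟨x, hx⟩ := hL q hq
        exact ⟨x, fun l => hx _ ((vals_iff σ M x _).2 ⟨l, rfl⟩)⟩
      ne := by
        rw [co_l, co_l, sl_l, sl_l]
        exact hinj
      ne' := by
        rw [sl_l, sl_l]
        intro he
        have h1 : ua j = -ua i := congrArg Prod.fst he
        have h2 := (hu i).1
        have h3 := (hu j).1
        omega }

/-- **Runs of five consecutive odd integers at prescribed distances.** -/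
theorem result :
    (∀ s m : ℤ, s = 1 ∨ s = -1 → (Local ![s] ![m] ↔ m % 2 = 0 ∧ (m % 7 = 0 ∨ m % 7 = 2 ∨ m % 7 = 5))) ∧
    ∀ K : ℕ, ∃ t : ℕ, 1 ≤ t ∧ ∃ κ : ℝ, 0 < κ ∧ ∀ β : ℝ, 0 < β → ∃ ε C : ℝ, 0 < ε ∧ ∀ (a s r : ℕ) (θ δ : ℝ), 1 ≤ s →
      0 < θ → 0 < δ → ∃ c X₀ : ℕ, ∀ (X : ℕ) (σ M : Fin K → ℤ) (i j : Fin 5), X₀ ≤ X → (∀ m, σ m = 1 ∨ σ m = -1) →
      (∀ m, |M m| ≤ (X : ℤ) ^ a) → Local σ M → i ≠ j →
      κ / Real.log X ^ (5 * K + 5) ≤ V σ M X ∧ ∀ A B : ℕ, B ≤ X → θ * X ≤ (B : ℝ) - A →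
        κ * ((B : ℝ) - A) * V σ M X ≤
          ((Good σ M i j t ((a + 3) * t) X (ε * Real.log X) ((X : ℝ) ^ β) A B).card : ℝ) ∧
        ((Rough σ M ((X : ℝ) ^ β) A B).card : ℝ) ≤ C * ((B : ℝ) - A) * V σ M X ∧
        ∀ χ : ℕ → Fin r, ∃ P : Finset (ℕ × ℕ),
          (∀ z ∈ P, 1 ≤ z.2 ∧ (z.2 : ℝ) ≤ Real.log X ^ c ∧
            ∀ m < s, z.1 + m * z.2 ∈ Good σ M i j t ((a + 3) * t) X (ε * Real.log X) ((X : ℝ) ^ β) A B ∧
              χ (z.1 + m * z.2) = χ z.1) ∧
          (P : Set (ℕ × ℕ)).PairwiseDisjoint (terms s) ∧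
          (((Good σ M i j t ((a + 3) * t) X (ε * Real.log X) ((X : ℝ) ^ β) A B \ P.biUnion (terms s)).card : ℕ) : ℝ) ≤
            δ * ((B : ℝ) - A) * V σ M X := by
  classical
  refine ⟨fun s m hs => local_one s m hs, fun K => ?_⟩
  obtain ⟨t, ht, κ, hκ, HF⟩ := farI (5 + K * 5) 15 (by omega)
  refine ⟨t, ht, κ, hκ, fun β hβ => ?_⟩
  obtain ⟨ε, hε, HF⟩ := HF β 15 hβ
  obtain ⟨KU, hKU, n₀, HR⟩ := rough_lin (5 + K * 5) 15 (by omega) (1 / 2) (by norm_num) β hβ
  refine ⟨ε, KU, hε, fun a s r η δ hs hη hδ => ?_⟩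
  obtain ⟨c, X₀, HF⟩ := HF (a + 1) s r η δ hs hη hδ
  have h4 : ∀ᶠ X : ℕ in atTop, 1 / η ≤ (X : ℝ) ^ (1 / 2 : ℝ) :=
    ((tendsto_rpow_atTop (by norm_num : (0 : ℝ) < 1 / 2)).comp tendsto_natCast_atTop_atTop).eventually_ge_atTop _
  obtain ⟨X₁, h4⟩ := eventually_atTop.1 h4
  refine ⟨c, X₀ + n₀ + X₁ + 19, fun X σ M i j hX hσ hM hL hij => ?_⟩
  have S := sys σ M hσ i j hij a X (by omega) hM hL
  obtain ⟨h1, h2⟩ := HF X (by omega) _ _ _ _ S
  rw [V_eq, show 5 * K + 5 = 5 + K * 5 by ring]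
  refine ⟨h1, fun A B hB hAB => ?_⟩
  obtain ⟨h3, h5⟩ := h2 A B hB hAB
  rw [good_eq, rough_eq]
  refine ⟨h3, ?_, h5⟩
  refine HR X (by omega) _ _ S.a0 S.aK A B hB ?_
  have hX0 : (0 : ℝ) < X := by exact_mod_cast (by omega : 0 < X)
  refine le_trans ?_ hAB
  have e1 := h4 X (by omega)
  have e2 : (X : ℝ) ^ (1 / 2 : ℝ) * (X : ℝ) ^ (1 / 2 : ℝ) = X := by
    rw [← Real.rpow_add hX0]
    norm_num
  have e3 : 0 ≤ (X : ℝ) ^ (1 / 2 : ℝ) := by positivity
  rw [div_le_iff₀ hη] at e1
  calc (X : ℝ) ^ (1 / 2 : ℝ) = (X : ℝ) ^ (1 / 2 : ℝ) * 1 := (mul_one _).symm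
    _ ≤ (X : ℝ) ^ (1 / 2 : ℝ) * ((X : ℝ) ^ (1 / 2 : ℝ) * η) := by gcongr
    _ = η * X := by rw [← mul_assoc, e2]; ring

end Pool.Agent.Results.MP_fc51f7_nt.RunsAtEveryDistance
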