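import Pool.Agent.T6.H2.PT.IsoP
import Pool.Agent.X32.Uni.Gold
import Pool.Agent.X32.Uni.Box

set_option autoImplicit false

/-!
# Sums of two isolated runs of five consecutive odd integers

For `x ≥ 1` odd `15 x - 4, 15 x - 2, 15 x, 15 x + 2, 15 x + 4` are five consecutive odd integers, and if four of five
consecutive odd integers `> 7` are primes, then they are of this form. We represent `m` as `m = x + x'`, that is
`15 m` as the sum of the middle elements of two such runs, in such a way that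

* a given one of the ten numbers `x, 15 x - 4, 15 x - 2, 15 x + 2, 15 x + 4, x', 15 x' - 4, ..., 15 x' + 4` is a prime,
  and another given one is a product of at most two primes, both `> m ^ (1/9)`,
* all the ten numbers are products of at most `t` primes, all `> m ^ (1/t)`,
* every other integer at distance at most `ε log m` of one of the ten numbers has a prime factor `≤ m ^ β`.

It is necessary that `m` is even and `≡ 0` or `± 2` modulo `7`, and this is sufficient for large `m`.
-/

namespace Pool.Agent.Results.MP_fc51f7_nt.SumsOfTwoRuns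

open Finset Filter
open Pool.Agent.X32.Uni Pool.Agent.T6.H2.PT

/-- `x` and the first, the second, the fourth and the fifth of the consecutive odd integers
`15 x - 4, 15 x - 2, 15 x, 15 x + 2, 15 x + 4`, for `x ≥ 1` odd -/
def run (x : ℕ) : Fin 5 → ℕ := ![x, 15 * x - 4, 15 * x - 2, 15 * x + 2, 15 * x + 4]

/-- the five numbers `run x` and the five numbers `run (m - x)` -/
def ten (m x : ℕ) (l : Fin 2 × Fin 5) : ℕ := run (if l.1 = 0 then x else m - x) l.2

/-- `v` is a product of at most `r` primes, all of them larger than `y` -/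
def AlmostPrime (r : ℕ) (y : ℝ) (v : ℕ) : Prop :=
  1 < v ∧ v.primeFactorsList.length ≤ r ∧ ∀ q : ℕ, q.Prime → q ∣ v → y < q

open Classical in
/-- the `x` in `(A, B]` such that the one of the ten numbers with the index `i` is a prime, the one with the index `j`
is a product of at most two primes `> m ^ (1/9)`, all the ten numbers are products of at most `t` primes
`> m ^ (1/t)`, and every other integer `z` at distance at most `w` of one of them has a prime factor `≤ y` -/
noncomputable def Good (i j : Fin 2 × Fin 5) (t m : ℕ) (w y : ℝ) (A B : ℕ) : Finset ℕ :=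
  (Ioc A B).filter (fun x : ℕ => (ten m x i).Prime ∧ AlmostPrime 2 ((m : ℝ) ^ (1 / 9 : ℝ)) (ten m x j) ∧
    (∀ l, AlmostPrime t ((m : ℝ) ^ (1 / (t : ℝ))) (ten m x l)) ∧
    ∀ z : ℤ, (∃ l, |(z : ℝ) - ten m x l| ≤ w) → (∀ l, z ≠ ten m x l) →
      ∃ q : ℕ, q.Prime ∧ (q : ℝ) ≤ y ∧ (q : ℤ) ∣ z)

open Classical in
/-- the `x` in `(A, B]` such that none of the ten numbers has a prime factor `≤ y` -/
noncomputable def Rough (m : ℕ) (y : ℝ) (A B : ℕ) : Finset ℕ :=
  (Ioc A B).filter (fun x : ℕ => ∀ l, ∀ q : ℕ, q.Prime → (q : ℝ) ≤ y → ¬ q ∣ ten m x l)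

/-- the terms `a, a + b, ..., a + (s - 1) b` of the progression `z = (a, b)` -/
def terms (s : ℕ) (z : ℕ × ℕ) : Finset ℕ := (range s).image (fun i => z.1 + i * z.2)

/-- slopes and constant terms of the forms of one run -/
def ua : Fin 5 → ℤ := ![1, 15, 15, 15, 15]
def va : Fin 5 → ℤ := ![0, -4, -2, 2, 4]

/-- the number of the residue classes `x` modulo `p` for which `p` divides one of the ten numbers
`x, 15 x - 4, 15 x - 2, 15 x + 2, 15 x + 4, m - x, 15 (m - x) - 4, ..., 15 (m - x) + 4` -/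
def nu (m p : ℕ) : ℕ :=
  ((range p).filter (fun x : ℕ => ∃ l, (p : ℤ) ∣ ua l * (x : ℤ) + va l ∨ (p : ℤ) ∣ ua l * ((m : ℤ) - x) + va l)).card

/-- the product of the `1 - nu m p / p` over the primes `p ≤ m` -/
noncomputable def V (m : ℕ) : ℝ := ∏ p ∈ (Icc 1 m).filter Nat.Prime, (1 - (nu m p : ℝ) / p)

/-- slopes and constant terms of the ten forms -/
def uu : Fin (5 + 5) → ℤ := Fin.append ua (fun l => -ua l)
def vv (m : ℕ) : Fin (5 + 5) → ℤ := Fin.append va (fun l => ua l * m + va l)

/-- the index of a form -/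
def idx (l : Fin 2 × Fin 5) : Fin (5 + 5) := if l.1 = 0 then Fin.castAdd 5 l.2 else Fin.natAdd 5 l.2

theorem run_eq {x : ℕ} (hx : 1 ≤ x) (l : Fin 5) : ua l * (x : ℤ) + va l = ((run x l : ℕ) : ℤ) := by
  fin_cases l
  · simp [ua, va, run]
  · simp [ua, va, run]
    omega
  · simp [ua, va, run]
    omega
  · simp [ua, va, run]
  · simp [ua, va, run]

theorem ten_eq {m x : ℕ} (hx : 1 ≤ x) (hxm : x < m) (l : Fin 2 × Fin 5) :
    uu (idx l) * (x : ℤ) + vv m (idx l) = ((ten m x l : ℕ) : ℤ) := by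
  unfold idx uu vv ten
  split_ifs with h
  · rw [Fin.append_left, Fin.append_left, run_eq hx]
  · rw [Fin.append_right, Fin.append_right, ← run_eq (by omega : 1 ≤ m - x), Nat.cast_sub hxm.le]
    ring

theorem idx_surj (l : Fin (5 + 5)) : ∃ l', idx l' = l := by
  refine Fin.addCases (fun i => ⟨(0, i), ?_⟩) (fun i => ⟨(1, i), ?_⟩) l
  · simp [idx]
  · simp [idx]

/-- a prime larger than the number of the forms is no obstruction -/
theorem adm_big {k : ℕ} (a b : Fin k → ℤ) (p : ℕ) (hp : p.Prime) (hpa : ∀ l, ¬ (p : ℤ) ∣ a l) (hk : k < p) :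
    ∃ n : ℤ, ∀ i, ¬ (p : ℤ) ∣ a i * n + b i := by
  classical
  by_contra hcon
  push Not at hcon
  choose g hg using fun n : ℕ => hcon n
  have hinj : Set.InjOn g (Finset.range p : Set ℕ) := by
    intro u hu c hc hac
    rw [Finset.mem_coe, Finset.mem_range] at hu hc
    have h5 := hg u
    have h6 := hg c
    rw [hac] at h5
    have h7 := dvd_sub h5 h6
    have h8 : (a (g c) * (u : ℤ) + b (g c)) - (a (g c) * (c : ℤ) + b (g c)) = a (g c) * ((u : ℤ) - c) := by ring
    rw [h8] at h7
    have h7' := ((Nat.prime_iff_prime_int.1 hp).dvd_mul.1 h7).resolve_left (hpa _)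
    have h9 : (c : ℤ) ≡ u [ZMOD p] := (Int.modEq_iff_dvd).2 h7'
    have h10 : c ≡ u [MOD p] := Int.natCast_modEq_iff.1 h9
    exact (Nat.ModEq.eq_of_lt_of_lt h10 hc hu).symm
  have h5 := Finset.card_le_card_of_injOn g (fun a _ => Finset.mem_univ (g a)) hinj
  rw [Finset.card_range, Finset.card_univ, Fintype.card_fin] at h5
  omega

theorem adm {m : ℕ} (h2 : 2 ∣ m) (h7 : m % 7 = 0 ∨ m % 7 = 2 ∨ m % 7 = 5) : AdmL uu (vv m) := by
  intro p hp
  -- it is enough to find a residue class
  have key : ∀ n : ℤ, (∀ l, ¬ (p : ℤ) ∣ ua l * n + va l) → (∀ l, ¬ (p : ℤ) ∣ ua l * ((m : ℤ) - n) + va l) →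
      ∀ i, ¬ (p : ℤ) ∣ uu i * n + vv m i := by
    intro n h1 h2 i
    unfold uu vv
    refine Fin.addCases (fun j => ?_) (fun j => ?_) i
    · rw [Fin.append_left, Fin.append_left]
      exact h1 j
    · rw [Fin.append_right, Fin.append_right]
      have : -ua j * n + (ua j * (m : ℤ) + va j) = ua j * ((m : ℤ) - n) + va j := by ring
      rw [this]
      exact h2 j
  rcases Nat.lt_or_ge p 11 with hlt | hge
  · have h4 : p = 2 ∨ p = 3 ∨ p = 5 ∨ p = 7 := by
      have := hp.two_le
      interval_cases p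
      · exact Or.inl rfl
      · exact Or.inr (Or.inl rfl)
      · exact absurd hp (by decide)
      · exact Or.inr (Or.inr (Or.inl rfl))
      · exact absurd hp (by decide)
      · exact Or.inr (Or.inr (Or.inr rfl))
      · exact absurd hp (by decide)
      · exact absurd hp (by decide)
      · exact absurd hp (by decide)
    have hex : ∃ n : ℤ, (∀ l, ¬ (p : ℤ) ∣ ua l * n + va l) ∧ (∀ l, ¬ (p : ℤ) ∣ ua l * ((m : ℤ) - n) + va l) := by
      rcases h4 with rfl | rfl | rfl | rfl
      · refine ⟨1, fun l => ?_, fun l => ?_⟩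
        · fin_cases l <;> simp [ua, va] <;> omega
        · fin_cases l <;> simp [ua, va] <;> omega
      · have hm : m % 3 = 0 ∨ m % 3 = 1 ∨ m % 3 = 2 := by omega
        rcases hm with hm | hm | hm
        · refine ⟨1, fun l => ?_, fun l => ?_⟩
          · fin_cases l <;> simp [ua, va] <;> omega
          · fin_cases l <;> simp [ua, va] <;> omega
        · refine ⟨2, fun l => ?_, fun l => ?_⟩
          · fin_cases l <;> simp [ua, va] <;> omega
          · fin_cases l <;> simp [ua, va] <;> omega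
        · refine ⟨1, fun l => ?_, fun l => ?_⟩
          · fin_cases l <;> simp [ua, va] <;> omega
          · fin_cases l <;> simp [ua, va] <;> omega
      · by_cases hm : m % 5 = 1
        · refine ⟨2, fun l => ?_, fun l => ?_⟩
          · fin_cases l <;> simp [ua, va] <;> omega
          · fin_cases l <;> simp [ua, va] <;> omega
        · refine ⟨1, fun l => ?_, fun l => ?_⟩
          · fin_cases l <;> simp [ua, va] <;> omega
          · fin_cases l <;> simp [ua, va] <;> omega
      · rcases h7 with hm | hm | hm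
        · refine ⟨1, fun l => ?_, fun l => ?_⟩
          · fin_cases l <;> simp [ua, va] <;> omega
          · fin_cases l <;> simp [ua, va] <;> omega
        · refine ⟨1, fun l => ?_, fun l => ?_⟩
          · fin_cases l <;> simp [ua, va] <;> omega
          · fin_cases l <;> simp [ua, va] <;> omega
        · refine ⟨6, fun l => ?_, fun l => ?_⟩
          · fin_cases l <;> simp [ua, va] <;> omega
          · fin_cases l <;> simp [ua, va] <;> omega
    obtain ⟨n, h5, h6⟩ := hex
    exact ⟨n, key n h5 h6⟩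
  · apply adm_big uu (vv m) p hp
    · have h3 : ∀ l, ¬ (p : ℤ) ∣ ua l := by
        intro l hd
        have h4 : ua l ∣ 15 := by
          fin_cases l <;> simp [ua]
        have h5 : p ∣ 15 := by exact_mod_cast hd.trans h4
        have h6 : p ≤ 15 := Nat.le_of_dvd (by norm_num) h5
        interval_cases p <;> first | exact absurd h5 (by decide) | exact absurd hp (by decide)
      intro l
      unfold uu
      refine Fin.addCases (fun j => ?_) (fun j => ?_) l
      · rw [Fin.append_left]
        exact h3 j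
      · rw [Fin.append_right, dvd_neg]
        exact h3 j
    · omega

theorem run7 {x : ℕ} (hx : 1 ≤ x) (h : ∀ l, ¬ 2 ∣ run x l ∧ ¬ 7 ∣ run x l) : x % 2 = 1 ∧ (x % 7 = 1 ∨ x % 7 = 6) := by
  have a0 := h 0
  have a1 := h 1
  have a2 := h 2
  have a3 := h 3
  have a4 := h 4
  simp [run] at a0 a1 a2 a3 a4
  refine ⟨by omega, ?_⟩
  have h7 : x % 7 = 0 ∨ x % 7 = 1 ∨ x % 7 = 2 ∨ x % 7 = 3 ∨ x % 7 = 4 ∨ x % 7 = 5 ∨ x % 7 = 6 := by omega
  rcases h7 with h7 | h7 | h7 | h7 | h7 | h7 | h7 <;> omega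

/-- the conditions are necessary -/
theorem nec {x x' : ℕ} (hx : 1 ≤ x) (hx' : 1 ≤ x') (h : ∀ l, ¬ 2 ∣ run x l ∧ ¬ 7 ∣ run x l)
    (h' : ∀ l, ¬ 2 ∣ run x' l ∧ ¬ 7 ∣ run x' l) :
    2 ∣ x + x' ∧ ((x + x') % 7 = 0 ∨ (x + x') % 7 = 2 ∨ (x + x') % 7 = 5) := by
  obtain ⟨a1, a2⟩ := run7 hx h
  obtain ⟨b1, b2⟩ := run7 hx' h'
  omega

theorem V_eq (m : ℕ) : VL uu (vv m) m = V m := by
  classical
  unfold VL V
  refine prod_congr rfl fun p hp => ?_
  rw [mem_filter] at hp
  have hpp := hp.2
  congr 3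
  unfold omL nu
  congr 1
  apply filter_congr
  intro x _
  constructor
  · intro hd
    obtain ⟨i, _, hi⟩ := (Nat.prime_iff_prime_int.1 hpp).exists_mem_finset_dvd hd
    revert hi
    unfold uu vv
    refine Fin.addCases (fun j => ?_) (fun j => ?_) i
    · intro hi
      rw [Fin.append_left, Fin.append_left] at hi
      exact ⟨j, Or.inl hi⟩
    · intro hi
      rw [Fin.append_right, Fin.append_right] at hi
      have e : -ua j * (x : ℤ) + (ua j * (m : ℤ) + va j) = ua j * ((m : ℤ) - x) + va j := by ring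
      rw [e] at hi
      exact ⟨j, Or.inr hi⟩
  · rintro ⟨j, hj | hj⟩
    · refine Dvd.dvd.trans ?_ (dvd_prod_of_mem _ (mem_univ (Fin.castAdd 5 j)))
      unfold uu vv
      rw [Fin.append_left, Fin.append_left]
      exact hj
    · refine Dvd.dvd.trans ?_ (dvd_prod_of_mem _ (mem_univ (Fin.natAdd 5 j)))
      unfold uu vv
      rw [Fin.append_right, Fin.append_right]
      have e : -ua j * (x : ℤ) + (ua j * (m : ℤ) + va j) = ua j * ((m : ℤ) - x) + va j := by ring
      rw [e]
      exact hj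

/-- the definition in terms of linear forms -/
theorem Good_eq (i j : Fin 2 × Fin 5) (t m : ℕ) (w y : ℝ) (A B : ℕ) (hB : B < m)
    (hw : w < (m : ℝ) ^ (1 / (t : ℝ))) :
    GoodI uu (vv m) (idx i) (idx j) t m w y A B = Good i j t m w y A B := by
  classical
  ext x
  unfold GoodI GoodL Good
  simp only [mem_filter, mem_Ioc]
  constructor
  · rintro ⟨⟨hx, h1, h2, h3⟩, hiso⟩
    have hv := fun l => ten_eq (m := m) (x := x) (by omega) (by omega) l
    rw [hv, Int.natAbs_natCast] at h1
    rw [hv, almostN_iff] at h2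
    have h5 : ∀ l, AlmostPrime t ((m : ℝ) ^ (1 / (t : ℝ))) (ten m x l) := by
      intro l
      have := h3 (idx l)
      rwa [hv, almostN_iff] at this
    refine ⟨hx, h1, h2, h5, fun z hz hz1 => ?_⟩
    have hpos : ∀ v : ℕ, AlmostPrime t ((m : ℝ) ^ (1 / (t : ℝ))) v → (m : ℝ) ^ (1 / (t : ℝ)) < v := by
      intro v hv
      obtain ⟨g1, g2, g3⟩ := hv
      obtain ⟨q, hq, hqd⟩ := Nat.exists_prime_and_dvd (Nat.ne_of_gt g1)
      have g4 := g3 q hq hqd
      have g5 : q ≤ v := Nat.le_of_dvd (by omega) hqd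
      have g6 : (q : ℝ) ≤ (v : ℝ) := by exact_mod_cast g5
      linarith
    obtain ⟨l, hz⟩ := hz
    have hz0 : 0 < z := by
      have : (0 : ℝ) < z := by
        have := (abs_le.1 hz).1
        have := hpos _ (h5 l)
        linarith
      exact_mod_cast this
    refine hiso (idx l) z ?_ fun u => ?_
    · rw [hv]
      exact_mod_cast hz
    · obtain ⟨u', rfl⟩ := idx_surj u
      rw [hv]
      refine ⟨hz1 u', ?_⟩
      have : (0 : ℤ) ≤ ((ten m x u' : ℕ) : ℤ) := Int.natCast_nonneg _
      omega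
  · rintro ⟨hx, h1, h2, h3, h5⟩
    have hv := fun l => ten_eq (m := m) (x := x) (by omega) (by omega) l
    refine ⟨⟨hx, ?_, ?_, fun u => ?_⟩, ?_⟩
    · rw [hv, Int.natAbs_natCast]
      exact h1
    · rw [hv, almostN_iff]
      exact h2
    · obtain ⟨l, rfl⟩ := idx_surj u
      rw [hv, almostN_iff]
      exact h3 l
    · intro u z hz hu
      obtain ⟨l, rfl⟩ := idx_surj u
      rw [hv] at hz
      refine h5 z ⟨l, by exact_mod_cast hz⟩ fun l' => ?_
      have := (hu (idx l')).1
      rwa [hv] at this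

theorem Rough_eq (m : ℕ) (y : ℝ) (A B : ℕ) (hB : B < m) : RL uu (vv m) y A B = Rough m y A B := by
  classical
  unfold RL Rough
  apply filter_congr
  intro x hx
  rw [mem_Ioc] at hx
  have hv := fun l => ten_eq (m := m) (x := x) (by omega) (by omega) l
  constructor
  · intro h l q hq hqy hd
    refine h (idx l) q hq hqy ?_
    rw [hv]
    exact Int.natCast_dvd_natCast.2 hd
  · intro h u q hq hqy hd
    obtain ⟨l, rfl⟩ := idx_surj u
    rw [hv] at hd
    exact h l q hq hqy (Int.natCast_dvd_natCast.1 hd)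

theorem idx_inj : Function.Injective idx := by decide

theorem ua_pos (j : Fin 5) : 1 ≤ ua j := by
  revert j
  decide

theorem va_le (j : Fin 5) : |va j| ≤ 4 := by
  revert j
  decide

theorem uu_le (l : Fin (5 + 5)) : |uu l| ≤ 15 := by
  revert l
  decide

theorem uu_ne (l : Fin (5 + 5)) : uu l ≠ 0 := by
  revert l
  decide

theorem vv_le {m : ℕ} (hm : 1 ≤ m) (l : Fin (5 + 5)) : |vv m l| ≤ (19 : ℕ) * (m : ℤ) := by
  unfold vv
  have h1 : (1 : ℤ) ≤ m := by exact_mod_cast hm
  refine Fin.addCases (fun j => ?_) (fun j => ?_) l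
  · rw [Fin.append_left]
    have h2 : |va j| ≤ 4 := by
      revert j
      decide
    push_cast
    linarith
  · rw [Fin.append_right]
    have h2 : |va j| ≤ 4 := by
      revert j
      decide
    have h3 : |ua j| ≤ 15 := by
      revert j
      decide
    refine (abs_add_le _ _).trans ?_
    rw [abs_mul, Nat.abs_cast]
    push_cast
    nlinarith

/-- different forms -/
theorem form_ne {m : ℕ} (hm : 9 ≤ m) {i j : Fin (5 + 5)} (h : i ≠ j) :
    (uu j, vv m j) ≠ (uu i, vv m i) ∧ (uu j, vv m j) ≠ (-uu i, -vv m i) := by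
  revert h
  unfold uu vv
  refine Fin.addCases (fun i => ?_) (fun i => ?_) i <;> refine Fin.addCases (fun j => ?_) (fun j => ?_) j <;> intro h
  · rw [Fin.append_left, Fin.append_left, Fin.append_left, Fin.append_left]
    have h' : i ≠ j := fun e => h (by rw [e])
    clear h
    revert i j
    decide
  · rw [Fin.append_left, Fin.append_left, Fin.append_right, Fin.append_right]
    clear h
    constructor
    · intro e
      have e1 := (Prod.ext_iff.1 e).1
      simp only at e1
      revert e1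
      clear e
      revert i j
      decide
    · intro e
      have e1 := (Prod.ext_iff.1 e).2
      simp only at e1
      have h1 := ua_pos j
      have h2 := va_le j
      have h3 := va_le i
      rw [abs_le] at h2 h3
      have h4 : (9 : ℤ) ≤ m := by exact_mod_cast hm
      nlinarith
  · rw [Fin.append_left, Fin.append_left, Fin.append_right, Fin.append_right]
    clear h
    constructor
    · intro e
      have e1 := (Prod.ext_iff.1 e).1
      simp only at e1
      revert e1
      clear e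
      revert i j
      decide
    · intro e
      have e1 := (Prod.ext_iff.1 e).2
      simp only at e1
      have h1 := ua_pos i
      have h2 := va_le j
      have h3 := va_le i
      rw [abs_le] at h2 h3
      have h4 : (9 : ℤ) ≤ m := by exact_mod_cast hm
      nlinarith
  · rw [Fin.append_right, Fin.append_right, Fin.append_right, Fin.append_right]
    have h' : i ≠ j := fun e => h (by rw [e])
    clear h
    constructor
    · intro e
      have e1 := (Prod.ext_iff.1 e).1
      have e2 := (Prod.ext_iff.1 e).2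
      simp only at e1 e2
      have e3 : ua j = ua i := by linarith
      rw [e3] at e2
      have e4 : va j = va i := by linarith
      revert h' e3 e4
      clear e e1 e2
      revert i j
      decide
    · intro e
      have e1 := (Prod.ext_iff.1 e).1
      simp only at e1
      revert e1
      clear e h'
      revert i j
      decide

/-- **Sums of two isolated runs.**

1. If `x, x' ≥ 1` and none of the ten numbers `x, 15 x ± 2, 15 x ± 4, x', 15 x' ± 2, 15 x' ± 4` is divisible by `2`
   or `7`, then `x + x'` is even and `≡ 0`, `2` or `5` modulo `7`.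
2. There are `t` and `κ > 0` such that for all `β > 0` there are `ε, K > 0` such that for all `s, r` and `θ, δ > 0`
   there is `c` such that for all large even `m ≡ 0, 2, 5` modulo `7` and all intervals `(A, B]` with `B < m`,
   `B - A ≥ θ m`: at most `K (B - A) V m` of the `x` in `(A, B]` are in `Rough` with `y = m ^ β`, and for all
   different indices `i, j` at least `κ (B - A) V m ≥ κ² (B - A) / log ^ 10 m` of them are in `Good` with
   `w = ε log m` and `y = m ^ β`, and for every colouring of the integers with `r` colours all the elements of `Good`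
   except at most `δ (B - A) V m` are covered by pairwise disjoint monochromatic arithmetic progressions of length
   `s` which are contained in `Good` and have positive differences at most `log ^ c m`. -/
theorem result :
    (∀ x x' : ℕ, 1 ≤ x → 1 ≤ x' → (∀ l, ¬ 2 ∣ run x l ∧ ¬ 7 ∣ run x l) → (∀ l, ¬ 2 ∣ run x' l ∧ ¬ 7 ∣ run x' l) →
      2 ∣ x + x' ∧ ((x + x') % 7 = 0 ∨ (x + x') % 7 = 2 ∨ (x + x') % 7 = 5)) ∧
    ∃ t : ℕ, 1 ≤ t ∧ ∃ κ : ℝ, 0 < κ ∧ ∀ β : ℝ, 0 < β → ∃ ε K : ℝ, 0 < ε ∧ 0 < K ∧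
    ∀ (s r : ℕ) (θ δ : ℝ), 1 ≤ s → 0 < θ → 0 < δ →
    ∃ c m₀ : ℕ, ∀ m : ℕ, m₀ ≤ m → 2 ∣ m → (m % 7 = 0 ∨ m % 7 = 2 ∨ m % 7 = 5) → κ / Real.log m ^ 10 ≤ V m ∧
      ∀ A B : ℕ, B < m → θ * m ≤ (B : ℝ) - A →
        ((Rough m ((m : ℝ) ^ β) A B).card : ℝ) ≤ K * ((B : ℝ) - A) * V m ∧
        ∀ i j : Fin 2 × Fin 5, i ≠ j →
          κ * ((B : ℝ) - A) * V m ≤
            ((Good i j t m (ε * Real.log m) ((m : ℝ) ^ β) A B).card : ℝ) ∧
          ∀ χ : ℕ → Fin r, ∃ P : Finset (ℕ × ℕ),
            (∀ z ∈ P, 1 ≤ z.2 ∧ (z.2 : ℝ) ≤ Real.log m ^ c ∧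
              ∀ l < s, z.1 + l * z.2 ∈ Good i j t m (ε * Real.log m) ((m : ℝ) ^ β) A B ∧
                χ (z.1 + l * z.2) = χ z.1) ∧
            (P : Set (ℕ × ℕ)).PairwiseDisjoint (terms s) ∧
            (((Good i j t m (ε * Real.log m) ((m : ℝ) ^ β) A B \ P.biUnion (terms s)).card : ℕ) : ℝ) ≤
              δ * ((B : ℝ) - A) * V m := by
  classical
  refine ⟨fun x x' h1 h2 h3 h4 => nec h1 h2 h3 h4, ?_⟩
  obtain ⟨t, ht, κ, hκ, HM⟩ := isoP (5 + 5) 15 (by omega)
  refine ⟨t, ht, κ, hκ, fun β hβ => ?_⟩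
  obtain ⟨ε, hε, HM⟩ := HM β 19 hβ
  obtain ⟨K₂, hK₂, X₁, HU⟩ := rough_lin (5 + 5) 15 (by omega) (1 / 2) (by norm_num) β hβ
  refine ⟨ε, K₂, hε, hK₂, fun s r θ δ hs hθ hδ => ?_⟩
  obtain ⟨c, X₀, HM⟩ := HM s r θ δ hs hθ hδ
  have ht0 : (0 : ℝ) < t := by exact_mod_cast ht
  have h4 : ∀ᶠ X : ℕ in atTop, 1 / θ ≤ (X : ℝ) ^ (1 / 2 : ℝ) :=
    ((tendsto_rpow_atTop (by norm_num : (0 : ℝ) < 1 / 2)).comp tendsto_natCast_atTop_atTop).eventually_ge_atTop _
  have h5 : ∀ᶠ X : ℕ in atTop, (2 * ε) * Real.log X ^ 1 ≤ (X : ℝ) ^ (1 / (t : ℝ)) :=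
    Pool.Agent.X32.Fam.log_small' 1 (2 * ε) (1 / (t : ℝ)) (by positivity)
  obtain ⟨X₄, h4⟩ := eventually_atTop.1 (h4.and h5)
  refine ⟨c, X₀ + X₁ + X₄ + 9, fun X hX h2X h7X => ?_⟩
  have hX1 : (1 : ℝ) ≤ X := by exact_mod_cast (by omega : 1 ≤ X)
  have hX0 : (0 : ℝ) < X := by linarith
  have hlog : 0 < Real.log X := Real.log_pos (by exact_mod_cast (by omega : 1 < X))
  have hw : ε * Real.log X < (X : ℝ) ^ (1 / (t : ℝ)) := by
    have := (h4 X (by omega)).2
    rw [pow_one] at this
    have h6 : 0 < ε * Real.log X := by positivity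
    linarith
  have hadm := adm h2X h7X
  have S : ∀ i j : Fin 2 × Fin 5, i ≠ j → SysL (5 + 5) 15 19 X uu (vv X) (idx i) (idx j) := fun i j hij =>
    { a0 := uu_ne
      aE := by
        have := uu_le (idx i)
        rw [Int.abs_eq_natAbs] at this
        exact_mod_cast this
      aE' := by
        have := uu_le (idx j)
        rw [Int.abs_eq_natAbs] at this
        exact_mod_cast this
      aK := fun l => (uu_le l).trans (by norm_num)
      bK := vv_le (by omega)
      adm := hadm
      ne := (form_ne (m := X) (by omega) (fun e => hij (idx_inj e))).1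
      ne' := (form_ne (m := X) (by omega) (fun e => hij (idx_inj e))).2 }
  obtain ⟨g1, -⟩ := HM X (by omega) _ _ _ _ (S (0, 0) (0, 1) (by decide))
  rw [V_eq] at g1
  refine ⟨g1, fun A B hB hAB => ?_⟩
  have hBA0 : 0 ≤ (B : ℝ) - A := le_trans (by positivity) hAB
  have hhalf : (X : ℝ) ^ (1 / 2 : ℝ) ≤ (B : ℝ) - A := by
    refine le_trans ?_ hAB
    have e1 := (h4 X (by omega)).1
    have e2 : (X : ℝ) ^ (1 / 2 : ℝ) * (X : ℝ) ^ (1 / 2 : ℝ) = X := by
      rw [← Real.rpow_add hX0]
      norm_num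
    have e3 : 0 ≤ (X : ℝ) ^ (1 / 2 : ℝ) := by positivity
    rw [div_le_iff₀ hθ] at e1
    calc (X : ℝ) ^ (1 / 2 : ℝ) = (X : ℝ) ^ (1 / 2 : ℝ) * 1 := (mul_one _).symm
      _ ≤ (X : ℝ) ^ (1 / 2 : ℝ) * ((X : ℝ) ^ (1 / 2 : ℝ) * θ) := by gcongr
      _ = θ * X := by rw [← mul_assoc, e2]; ring
  refine ⟨?_, fun i j hij => ?_⟩
  · have g4 := HU X (by omega) uu (vv X) uu_ne uu_le A B hB.le hhalf
    rwa [Rough_eq X _ A B hB, V_eq] at g4
  obtain ⟨-, g2⟩ := HM X (by omega) _ _ _ _ (S i j hij)
  obtain ⟨g3, g4⟩ := g2 A B hB.le hAB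
  rw [Good_eq i j t X _ _ A B hB hw, V_eq] at g3 g4
  exact ⟨g3, g4⟩

end Pool.Agent.Results.MP_fc51f7_nt.SumsOfTwoRuns
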